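import Pool.Agent.Results.MP_ace4dd_an.NotMonotone

/-! Perturbed families with many oscillations, after `NotMonotone`. -/

set_option autoImplicit false

namespace Pool.Agent.Y958.KN

open Set Filter Topology
open scoped ENNReal
open Pool.Agent.Results.MP_ace4dd_an.NotMonotone

/-- the amplitude with frequency `ω` -/
noncomputable def ampw (ω δ μ : ℝ) : ℝ := δ * Real.sin (ω * (μ - 1) / δ)

/-- the perturbed family -/
noncomputable def famw (ω δ : ℝ) (N : ℕ) (μ x : ℝ) : ℝ := (μ - 1) - μ * (hh N (ampw ω δ μ) x) ^ 2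

lemma abs_ampw (ω δ μ : ℝ) (hδ : 0 < δ) : |ampw ω δ μ| ≤ δ := by
  rw [ampw, abs_mul, abs_of_pos hδ]
  have := Real.abs_sin_le_one (ω * (μ - 1) / δ)
  nlinarith

lemma hasDerivAt_ampw (ω δ μ : ℝ) (hδ : 0 < δ) :
    HasDerivAt (ampw ω δ) (ω * Real.cos (ω * (μ - 1) / δ)) μ := by
  have h1 : HasDerivAt (fun μ : ℝ => ω * (μ - 1) / δ) (ω * 1 / δ) μ :=
    (((hasDerivAt_id μ).sub_const 1).const_mul ω).div_const δ
  refine ((h1.sin).const_mul δ).congr_deriv ?_
  field_simp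

/-- the perturbation -/
lemma famw_sub (ω δ : ℝ) (N : ℕ) (μ x : ℝ) : famw ω δ N μ x - quad μ x =
    μ * (2 * x * (ampw ω δ μ) * (1 - x ^ 2) ^ N - (ampw ω δ μ) ^ 2 * ((1 - x ^ 2) ^ N) ^ 2) := by
  simp only [famw, quad, hh]; ring

/-- the `C¹` size of the perturbation -/
lemma c1_boundw {ω : ℝ} (hω : 0 < ω) {δ : ℝ} (hδ : 0 < δ) (hδ1 : δ ≤ 1) {M : ℕ} (hM : 0 < M) {x μ : ℝ}
    (hx : x ∈ Icc (-1 : ℝ) 1) (hμ : μ ∈ Ioc (0 : ℝ) 2) :
    |famw ω δ (M ^ 2) μ x - quad μ x| +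
      |derivWithin (fun y => famw ω δ (M ^ 2) μ y - quad μ y) (Icc (-1) 1) x| +
      |derivWithin (fun m => famw ω δ (M ^ 2) m x - quad m x) (Ioc 0 2) μ| ≤
      (13 + 16 * (M : ℝ) ^ 2 + 4 * ω) * δ + 2 * ω / M := by
  set N := M ^ 2 with hN
  have ha := abs_ampw ω δ μ hδ
  have hx1 := abs_x hx
  have hw := pow_bound hx N
  have hdw := dw_bound hx N
  have hμ1 : |μ| ≤ 2 := by rw [abs_of_pos hμ.1]; exact hμ.2
  have hxw := x_pow_bound hx M hM
  rw [← hN] at hxw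
  have hMpos : (0 : ℝ) < M := by exact_mod_cast hM
  have hNr : (N : ℝ) = (M : ℝ) ^ 2 := by rw [hN]; push_cast; ring
  have ha' : |ω * Real.cos (ω * (μ - 1) / δ)| ≤ ω := by
    rw [abs_mul, abs_of_pos hω]
    have h1 := Real.abs_cos_le_one (ω * (μ - 1) / δ)
    nlinarith [abs_nonneg (Real.cos (ω * (μ - 1) / δ))]
  set a := ampw ω δ μ with hadef
  set a' := ω * Real.cos (ω * (μ - 1) / δ) with ha'def
  set w := (1 - x ^ 2) ^ N with hwdef
  set w' := (N : ℝ) * (1 - x ^ 2) ^ (N - 1) * (-(2 * x)) with hw'def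
  -- the function itself
  have hsq : ∀ t : ℝ, |t| ≤ 1 → |t ^ 2| ≤ 1 := fun t ht => by
    rw [abs_pow]; exact pow_le_one₀ (abs_nonneg _) ht
  have ha2 : |a ^ 2| ≤ δ := by
    rw [abs_pow]
    calc |a| ^ 2 ≤ δ ^ 2 := pow_le_pow_left₀ (abs_nonneg _) ha 2
      _ ≤ δ := by nlinarith
  have e1 : |2 * x * a * w - a ^ 2 * w ^ 2| ≤ 3 * δ := by
    have h1 : |2 * x * a * w| ≤ 2 * δ * 1 := by
      apply abs_le_helper _ ha hw
      rw [abs_mul, abs_two]; linarith
    have h2 : |a ^ 2 * w ^ 2 * 1| ≤ δ * 1 * 1 := abs_le_helper ha2 (hsq w hw) (by simp)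
    rw [mul_one] at h2
    calc _ ≤ |2 * x * a * w| + |a ^ 2 * w ^ 2| := abs_sub _ _
      _ ≤ _ := by linarith
  have E0 : |famw ω δ N μ x - quad μ x| ≤ 6 * δ := by
    rw [famw_sub, abs_mul]
    calc |μ| * |2 * x * ampw ω δ μ * (1 - x ^ 2) ^ N - ampw ω δ μ ^ 2 * ((1 - x ^ 2) ^ N) ^ 2|
        ≤ 2 * (3 * δ) := by gcongr
      _ = 6 * δ := by ring
  -- the derivative in `x`
  have hwder : HasDerivAt (fun y : ℝ => (1 - y ^ 2) ^ N) w' x := by
    have h1 : HasDerivAt (fun x : ℝ => 1 - x ^ 2) (-(2 * x)) x := by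
      have := ((hasDerivAt_id x).pow 2).const_sub 1
      simpa using this
    exact h1.fun_pow N
  have hPx : HasDerivAt (fun y => famw ω δ N μ y - quad μ y)
      (μ * (2 * a * w + 2 * x * a * w' - a ^ 2 * (2 * w * w'))) x := by
    have h1 : HasDerivAt (fun y : ℝ => 2 * y * a * (1 - y ^ 2) ^ N)
        (2 * a * w + 2 * x * a * w') x := by
      have h2 : HasDerivAt (fun y : ℝ => 2 * y * a) (2 * a) x := by
        refine (((hasDerivAt_id x).const_mul 2).mul_const a).congr_deriv ?_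
        ring
      exact h2.fun_mul hwder
    have h3 : HasDerivAt (fun y : ℝ => a ^ 2 * ((1 - y ^ 2) ^ N) ^ 2)
        (a ^ 2 * (2 * w * w')) x := by
      refine ((hwder.fun_pow 2).const_mul (a ^ 2)).congr_deriv ?_
      rw [show (2 : ℕ) - 1 = 1 from rfl, pow_one, hwdef]
      push_cast
      ring
    have h4 := (h1.fun_sub h3).const_mul μ
    refine h4.congr_of_eventuallyEq (Eventually.of_forall fun y => ?_)
    show famw ω δ N μ y - quad μ y = _
    rw [famw_sub]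
  have E1 : |derivWithin (fun y => famw ω δ N μ y - quad μ y) (Icc (-1) 1) x| ≤
      4 * δ + 16 * N * δ := by
    rw [hPx.hasDerivWithinAt.derivWithin (uniqueDiffOn_Icc (by norm_num) x hx), abs_mul]
    have h1 : |2 * a * w| ≤ 2 * δ * 1 := abs_le_helper (by norm_num) ha hw
    have h2 : |2 * x * a * w'| ≤ 2 * δ * (2 * N) := by
      apply abs_le_helper _ ha hdw
      rw [abs_mul, abs_two]; linarith
    have h3 : |a ^ 2 * (2 * w) * w'| ≤ δ * 2 * (2 * N) := by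
      apply abs_le_helper ha2 _ hdw
      rw [abs_mul, abs_two]; linarith
    have h4 : |2 * a * w + 2 * x * a * w' - a ^ 2 * (2 * w * w')| ≤ 2 * δ + 8 * N * δ := by
      calc _ ≤ |2 * a * w + 2 * x * a * w'| + |a ^ 2 * (2 * w * w')| := abs_sub _ _
        _ ≤ |2 * a * w| + |2 * x * a * w'| + |a ^ 2 * (2 * w * w')| := by
          gcongr; exact abs_add_le _ _
        _ = |2 * a * w| + |2 * x * a * w'| + |a ^ 2 * (2 * w) * w'| := by
          rw [show a ^ 2 * (2 * w * w') = a ^ 2 * (2 * w) * w' by ring]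
        _ ≤ _ := by linarith
    calc |μ| * |2 * a * w + 2 * x * a * w' - a ^ 2 * (2 * w * w')|
        ≤ 2 * (2 * δ + 8 * N * δ) := by gcongr
      _ = _ := by ring
  -- the derivative in `μ`
  have hPm : HasDerivAt (fun m => famw ω δ N m x - quad m x)
      ((2 * x * a * w - a ^ 2 * w ^ 2) + μ * (2 * x * a' * w - 2 * a * a' * w ^ 2)) μ := by
    have hA := hasDerivAt_ampw ω δ μ hδ
    have h1 : HasDerivAt (fun m : ℝ => 2 * x * ampw ω δ m * w - (ampw ω δ m) ^ 2 * w ^ 2)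
        (2 * x * a' * w - 2 * a * a' * w ^ 2) μ := by
      have h2 : HasDerivAt (fun m : ℝ => 2 * x * ampw ω δ m * w) (2 * x * a' * w) μ :=
        (hA.const_mul (2 * x)).mul_const w
      have h3 : HasDerivAt (fun m : ℝ => (ampw ω δ m) ^ 2 * w ^ 2) (2 * a * a' * w ^ 2) μ := by
        refine ((hA.fun_pow 2).mul_const (w ^ 2)).congr_deriv ?_
        rw [show (2 : ℕ) - 1 = 1 from rfl, pow_one, hadef, ha'def]
        push_cast
        ring
      exact h2.fun_sub h3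
    have h4 := (hasDerivAt_id μ).fun_mul h1
    refine (h4.congr_deriv ?_).congr_of_eventuallyEq (Eventually.of_forall fun m => ?_)
    · simp only [id]; ring
    · show famw ω δ N m x - quad m x = _
      rw [famw_sub]; rfl
  have E2 : |derivWithin (fun m => famw ω δ N m x - quad m x) (Ioc 0 2) μ| ≤ (3 + 4 * ω) * δ + 2 * ω / M := by
    rw [hPm.hasDerivWithinAt.derivWithin (uniqueDiffOn_Ioc 0 2 μ hμ)]
    have h2 : |2 * x * a' * w| ≤ ω / M := by
      have : |2 * x * a' * w| = 2 * |a'| * (|x| * |w|) := by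
        rw [abs_mul, abs_mul, abs_mul, abs_two]; ring
      rw [this]
      calc 2 * |a'| * (|x| * |w|) ≤ 2 * ω * (1 / (2 * M)) := by gcongr
        _ = ω / M := by field_simp
    have h3 : |2 * a * a' * w ^ 2| ≤ 2 * δ * ω * 1 := by
      rw [abs_mul]
      have h5 : |2 * a * a'| ≤ 2 * δ * ω := abs_le_helper (by norm_num) ha ha'
      have h6 := hsq w hw
      gcongr
    calc |(2 * x * a * w - a ^ 2 * w ^ 2) + μ * (2 * x * a' * w - 2 * a * a' * w ^ 2)|
        ≤ |2 * x * a * w - a ^ 2 * w ^ 2| + |μ| * |2 * x * a' * w - 2 * a * a' * w ^ 2| := by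
          rw [← abs_mul]; exact abs_add_le _ _
      _ ≤ 3 * δ + 2 * (ω / M + 2 * δ * ω * 1) := by
          gcongr
          exact (abs_sub _ _).trans (add_le_add h2 h3)
      _ = (3 + 4 * ω) * δ + 2 * ω / M := by ring
  rw [← hNr]
  have e9 : (13 + 16 * (N : ℝ) + 4 * ω) * δ + 2 * ω / M =
      6 * δ + (4 * δ + 16 * N * δ) + ((3 + 4 * ω) * δ + 2 * ω / M) := by ring
  rw [e9]
  linarith

lemma contDiff_famw (ω δ : ℝ) (N : ℕ) (n : WithTop ℕ∞) :
    ContDiff ℝ n (fun p : ℝ × ℝ => famw ω δ N p.2 p.1) := by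
  unfold famw hh ampw
  fun_prop

/-- higher derivatives in `x` -/
lemma iter_boundw (N r : ℕ) : ∃ C : ℝ, 0 ≤ C ∧ ∀ ω δ : ℝ, 0 < δ → δ ≤ 1 → ∀ μ ∈ Ioc (0 : ℝ) 2,
    ∀ x ∈ Icc (-1 : ℝ) 1, ∀ k ≤ r,
      |iteratedDerivWithin k (fun y => famw ω δ N μ y - quad μ y) (Icc (-1) 1) x| ≤ C * δ := by
  set A : ℝ → ℝ := fun x => 2 * x * (1 - x ^ 2) ^ N with hA
  set B : ℝ → ℝ := fun x => ((1 - x ^ 2) ^ N) ^ 2 with hB
  have hAs : ∀ n : WithTop ℕ∞, ContDiff ℝ n A := fun n => by rw [hA]; fun_prop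
  have hBs : ∀ n : WithTop ℕ∞, ContDiff ℝ n B := fun n => by rw [hB]; fun_prop
  have hbd : ∀ F : ℝ → ℝ, (∀ n : WithTop ℕ∞, ContDiff ℝ n F) → ∀ k : ℕ, ∃ C : ℝ,
      ∀ x ∈ Icc (-1 : ℝ) 1, |iteratedDerivWithin k F (Icc (-1) 1) x| ≤ C := by
    intro F hF k
    have hc : ContinuousOn (iteratedDerivWithin k F (Icc (-1) 1)) (Icc (-1) 1) :=
      ((hF k).contDiffOn).continuousOn_iteratedDerivWithin (le_refl _)
        (uniqueDiffOn_Icc (by norm_num))
    obtain ⟨C, hC⟩ := isCompact_Icc.exists_bound_of_continuousOn hc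
    exact ⟨C, fun x hx => by simpa using hC x hx⟩
  choose CA hCA using hbd A hAs
  choose CB hCB using hbd B hBs
  refine ⟨∑ k ∈ Finset.range (r + 1), 2 * (|CA k| + |CB k|), by positivity, ?_⟩
  intro ω δ hδ hδ1 μ hμ x hx k hk
  have hμ1 : |μ| ≤ 2 := by rw [abs_of_pos hμ.1]; exact hμ.2
  have ha := abs_ampw ω δ μ hδ
  have hfun : (fun y => famw ω δ N μ y - quad μ y) =
      (fun y => (μ * ampw ω δ μ) * A y) - (fun y => (μ * (ampw ω δ μ) ^ 2) * B y) := by
    funext y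
    rw [Pi.sub_apply, famw_sub, hA, hB]
    ring
  have hu := uniqueDiffOn_Icc (show (-1 : ℝ) < 1 by norm_num)
  have h1 : iteratedDerivWithin k (fun y => famw ω δ N μ y - quad μ y) (Icc (-1) 1) x =
      (μ * ampw ω δ μ) * iteratedDerivWithin k A (Icc (-1) 1) x -
        (μ * (ampw ω δ μ) ^ 2) * iteratedDerivWithin k B (Icc (-1) 1) x := by
    rw [hfun, iteratedDerivWithin_sub hx hu
      ((contDiff_const.mul (hAs k)).contDiffOn.contDiffWithinAt hx)
      ((contDiff_const.mul (hBs k)).contDiffOn.contDiffWithinAt hx),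
      iteratedDerivWithin_const_mul hx hu _ ((hAs k).contDiffOn.contDiffWithinAt hx),
      iteratedDerivWithin_const_mul hx hu _ ((hBs k).contDiffOn.contDiffWithinAt hx)]
  have h2 : |(μ * ampw ω δ μ) * iteratedDerivWithin k A (Icc (-1) 1) x| ≤ 2 * δ * |CA k| :=
    abs_le_helper hμ1 ha ((hCA k x hx).trans (le_abs_self _))
  have ha2 : |(ampw ω δ μ) ^ 2| ≤ δ := by
    rw [abs_pow]
    calc |ampw ω δ μ| ^ 2 ≤ δ ^ 2 := pow_le_pow_left₀ (abs_nonneg _) ha 2
      _ ≤ δ := by nlinarith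
  have h3 : |(μ * (ampw ω δ μ) ^ 2) * iteratedDerivWithin k B (Icc (-1) 1) x| ≤ 2 * δ * |CB k| :=
    abs_le_helper hμ1 ha2 ((hCB k x hx).trans (le_abs_self _))
  have h4 : 2 * (|CA k| + |CB k|) ≤ ∑ k ∈ Finset.range (r + 1), 2 * (|CA k| + |CB k|) :=
    Finset.single_le_sum (f := fun k => 2 * (|CA k| + |CB k|)) (fun i _ => by positivity)
      (Finset.mem_range.2 (by omega))
  rw [h1]
  calc _ ≤ 2 * δ * |CA k| + 2 * δ * |CB k| := (abs_sub _ _).trans (add_le_add h2 h3)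
    _ = 2 * (|CA k| + |CB k|) * δ := by ring
    _ ≤ _ := by gcongr

/-- the sign of `f(c) - c` is stable under `C⁰`-small perturbations in the class of unimodal maps -/
lemma robust {f : ℝ → ℝ} {c : ℝ} (h : IsUnimodal f c) (hne : f c ≠ c) : ∃ η : ℝ, 0 < η ∧
    ∀ (f' : ℝ → ℝ) (c' : ℝ), IsUnimodal f' c' → (∀ x ∈ Icc (-1 : ℝ) 1, |f' x - f x| < η) →
      (c < f c → c' < f' c') ∧ (f c < c → f' c' < c') := by
  have hv := h.maps h.mem
  have hmax : ∀ {f : ℝ → ℝ} {c : ℝ}, IsUnimodal f c → ∀ x ∈ Icc (-1 : ℝ) 1, f x ≤ f c := by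
    intro f c h x hx
    rcases le_total x c with hxc | hxc
    · exact h.inc.monotoneOn ⟨hx.1, hxc⟩ ⟨h.mem.1, le_refl _⟩ hxc
    · exact h.dec.antitoneOn ⟨le_refl _, h.mem.2⟩ ⟨hxc, hx.2⟩ hxc
  obtain ⟨s, hs⟩ : ∃ s, s = (c + f c) / 2 := ⟨_, rfl⟩
  have hsI : s ∈ Icc (-1 : ℝ) 1 := by
    constructor
    · linarith [h.mem.1, hv.1]
    · linarith [h.mem.2, hv.2]
  rcases lt_or_gt_of_ne hne with hlt | hgt
  · -- `f c < c`
    have hsc : s < c := by linarith
    have hfs : f s < f c := h.inc ⟨hsI.1, hsc.le⟩ ⟨h.mem.1, le_refl _⟩ hsc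
    refine ⟨min ((f c - f s) / 2) ((c - f c) / 2), lt_min (by linarith) (by linarith), ?_⟩
    intro f' c' h' hcl
    refine ⟨fun hh => absurd hh (not_lt.2 hlt.le), fun _ => ?_⟩
    have h1 := abs_lt.1 (hcl c' h'.mem)
    have h2 := hmax h c' h'.mem
    have h3 : min ((f c - f s) / 2) ((c - f c) / 2) ≤ (c - f c) / 2 := min_le_right _ _
    have h4 : min ((f c - f s) / 2) ((c - f c) / 2) ≤ (f c - f s) / 2 := min_le_left _ _
    have h5 : f' c' < s := by linarith [h1.2]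
    have h6 : s < c' := by
      by_contra hcon
      push Not at hcon
      have h7 := h'.dec (a := s) (b := c) ⟨hcon, hsI.2⟩ ⟨by linarith, h.mem.2⟩ hsc
      have h8 := abs_lt.1 (hcl s hsI)
      have h9 := abs_lt.1 (hcl c h.mem)
      linarith [h8.2, h9.1]
    linarith
  · -- `c < f c`
    have hsc : c < s := by linarith
    have hfs : f s < f c := h.dec ⟨le_refl _, h.mem.2⟩ ⟨hsc.le, hsI.2⟩ hsc
    refine ⟨min ((f c - f s) / 2) ((f c - c) / 2), lt_min (by linarith) (by linarith), ?_⟩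
    intro f' c' h' hcl
    refine ⟨fun _ => ?_, fun hh => absurd hh (not_lt.2 hgt.le)⟩
    have h1 := abs_lt.1 (hcl c h.mem)
    have h2 := hmax h' c h.mem
    have h3 : min ((f c - f s) / 2) ((f c - c) / 2) ≤ (f c - c) / 2 := min_le_right _ _
    have h4 : min ((f c - f s) / 2) ((f c - c) / 2) ≤ (f c - f s) / 2 := min_le_left _ _
    have h5 : s < f' c' := by linarith [h1.1]
    have h6 : c' < s := by
      by_contra hcon
      push Not at hcon
      have h7 := h'.inc (a := c) (b := s) ⟨h.mem.1, by linarith⟩ ⟨hsI.1, hcon⟩ hsc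
      have h8 := abs_lt.1 (hcl s hsI)
      have h9 := abs_lt.1 (hcl c h.mem)
      linarith [h8.2, h9.1]
    linarith

/-- the first coefficient of the kneading sequence of an arbitrary differentiable unimodal map -/
lemma kneading0 {f : ℝ → ℝ} {c : ℝ} (h : IsUnimodal f c) (hd : DifferentiableOn ℝ f (Icc (-1) 1)) {ν : ℕ → SignType}
    (hν : IsKneading f ν) : (c < f c → ν 0 = -1) ∧ (f c < c → ν 0 = 1) := by
  obtain ⟨c', hc', hν⟩ := hν
  have hcc := turning_unique hc' h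
  subst hcc
  have hz := turning_value_gt h
  have hz1 := (turning_value_mem h).2
  have hev : ∀ᶠ y in 𝓝[<] (f c'), SignType.sign (deriv f y) = ν 0 := by
    filter_upwards [hν 0, theta_eq h] with y h1 h2
    rw [← h1, h2 0]
    simp only [zero_add, Function.iterate_one]
  obtain ⟨a, ha, haI⟩ := mem_nhdsLT_iff_exists_Ioo_subset.1 hev
  have key : ∀ b, -1 ≤ b → b < f c' → ∃ y1 y2 ξ : ℝ, b < y1 ∧ y1 < y2 ∧ y2 < f c' ∧ ξ ∈ Ioo y1 y2 ∧
      SignType.sign (deriv f ξ) = ν 0 ∧ deriv f ξ = (f y2 - f y1) / (y2 - y1) := by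
    intro b hb hbf
    have hm : max a b < f c' := max_lt ha hbf
    obtain ⟨y1, hy1, hy1'⟩ := exists_between hm
    obtain ⟨y2, hy2, hy2'⟩ := exists_between hy1'
    have hb1 : b < y1 := lt_of_le_of_lt (le_max_right _ _) hy1
    have ha1 : a < y1 := lt_of_le_of_lt (le_max_left _ _) hy1
    have hsub : Icc y1 y2 ⊆ Icc (-1 : ℝ) 1 := Icc_subset_Icc (by linarith) (by linarith)
    obtain ⟨ξ, hξ, hξd⟩ := exists_deriv_eq_slope f hy2 (h.cont.mono hsub) (by
      intro x hx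
      have hx1 : x ∈ Ioo (-1 : ℝ) 1 := ⟨by linarith [hx.1], by linarith [hx.2]⟩
      exact ((hd x (Ioo_subset_Icc_self hx1)).differentiableAt (Icc_mem_nhds hx1.1 hx1.2)).differentiableWithinAt)
    exact ⟨y1, y2, ξ, hb1, hy2, hy2', hξ, haI ⟨by linarith [hξ.1], by linarith [hξ.2]⟩, hξd⟩
  constructor
  · intro hlt
    obtain ⟨y1, y2, ξ, h1, h2, h3, h4, h5, h6⟩ := key c' h.mem.1 hlt
    rw [← h5, h6, sign_eq_neg_one_iff]
    apply div_neg_of_neg_of_pos _ (by linarith)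
    have := h.dec (a := y1) (b := y2) ⟨h1.le, by linarith⟩ ⟨by linarith, by linarith⟩ h2
    linarith
  · intro hlt
    obtain ⟨y1, y2, ξ, h1, h2, h3, h4, h5, h6⟩ := key (-1) (le_refl _) hz
    rw [← h5, h6, sign_eq_one_iff]
    apply div_pos _ (by linarith)
    have := h.inc (a := y1) (b := y2) ⟨h1.le, by linarith⟩ ⟨by linarith, by linarith⟩ h2
    linarith

end Pool.Agent.Y958.KN
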